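import Pool.Agent.H23.PRankMod
import Pool.Agent.H23.PRankSol

/-! Linear bound `d(H) ≤ 4 n(G,V) + 2` for every soluble subgroup `H` of `G`. -/

namespace Pool.Agent.Results.MP_518c18_al.SolubleLinear

open Pool.Agent.H23.PRank

theorem result (G : Type) [Group G] [Finite G] (F : Type) [Field F]
    (V : Type) [AddCommGroup V] [Module F V] (ρ : Representation F G V)
    (hρ : Function.Injective ρ) (hc : Cardinal.mk (Subgroup G) < Cardinal.mk F)
    (hF : ringChar F = 0 ∨ Nat.Coprime (ringChar F) (Nat.card G))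
    (H : Subgroup G) (hH : Group.IsSolvable H) :
    ∃ s : Finset G,
      s.card ≤ 4 * Set.ncard {k : ℕ | ∃ v : V, Set.ncard (Set.range fun g : G => ρ g v) = k} + 2 ∧
        Subgroup.closure (s : Set G) = H := by
  classical
  have hc' : (Nat.card (Subgroup G) : ℕ∞) < ENat.card F := by
    rw [← Nat.cast_card] at hc
    simpa [ENat.card] using hc
  have hF' : (Nat.card G : F) ≠ 0 := fun h => by
    have h1 := (ringChar.spec F _).1 h
    rcases hF with h2 | h2
    · rw [h2, zero_dvd_iff] at h1; exact Nat.card_pos.ne' h1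
    · exact CharP.ringChar_ne_one (Nat.Coprime.eq_one_of_dvd h2 h1)
  have h := kov _ _ H rfl fun p _ P => by
    obtain ⟨S, s1, s2, s3⟩ := pbound hρ hc' hF' ((P : Subgroup H).map H.subtype) (P.isPGroup'.map _)
    refine ⟨S.preimage H.subtype Subtype.val_injective.injOn, ?_, le_trans ?_ s2, ?_⟩
    · intro x hx
      obtain ⟨y, hy, e⟩ := s1 (Finset.mem_preimage.1 hx)
      exact (Subtype.ext e : y = x) ▸ hy
    · exact Finset.card_le_card_of_injOn H.subtype (fun x hx => Finset.mem_preimage.1 hx)
        Subtype.val_injective.injOn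
    · rw [sup_bot_eq] at s3 ⊢
      rw [← Subgroup.map_le_map_iff_of_injective H.subtype_injective, MonoidHom.map_closure,
        Finset.coe_preimage, Set.image_preimage_eq_of_subset]
      · exact s3
      · intro x hx
        obtain ⟨y, -, e⟩ := s1 hx
        exact ⟨y, e⟩
  obtain ⟨S, s1, s2, s3⟩ := h.map H.subtype
  rw [← MonoidHom.range_eq_map, Subgroup.range_subtype] at s1 s3
  rw [Subgroup.map_bot, sup_bot_eq] at s3
  exact ⟨S, s2, le_antisymm ((Subgroup.closure_le _).2 s1) s3⟩

end Pool.Agent.Results.MP_518c18_al.SolubleLinear
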